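import Mathlib

open scoped ENNReal
open Filter Topology

namespace Pool.Agent.Results.MP_810de6_an.MBasisContainsLinf

variable (𝕜 : Type) [RCLike 𝕜]

/-- the space of bounded scalar sequences -/
abbrev LInf : Type := lp (fun _ : ℕ => 𝕜) ∞

/-- the second index set: pairs (bounded sequence in the unit ball, natural number) -/
abbrev Gam : Type := {y : LInf 𝕜 // ‖y‖ ≤ 1} × ℕ

/-- the l1 space over the second index set -/
abbrev LOne : Type := lp (fun _ : Gam 𝕜 => 𝕜) 1

variable {𝕜}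

/-- the sequence y with the first n coordinates deleted -/
noncomputable def tail (n : ℕ) (y : LInf 𝕜) : LInf 𝕜 :=
  ⟨fun i => if n ≤ i then y i else 0, by
    apply memℓp_infty
    refine ⟨‖y‖, ?_⟩
    rintro _ ⟨i, rfl⟩
    dsimp only
    split_ifs with h
    · exact lp.norm_apply_le_norm ENNReal.top_ne_zero y i
    · simp⟩

theorem tail_apply (n : ℕ) (y : LInf 𝕜) (i : ℕ) : (tail n y) i = if n ≤ i then y i else 0 := rfl

/-- the weight of the i-th functional at the index (y,n) -/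
noncomputable def wt (i : ℕ) (g : Gam 𝕜) : 𝕜 :=
  ((g.2 + 1 : ℕ) : 𝕜) * (if g.2 ≤ i then (g.1.1 : LInf 𝕜) i else 0)

theorem norm_wt_le (i : ℕ) (g : Gam 𝕜) : ‖wt i g‖ ≤ (i + 1 : ℕ) := by
  unfold wt
  split_ifs with h
  · rw [norm_mul, RCLike.norm_natCast]
    have h1 : ‖(g.1.1 : LInf 𝕜) i‖ ≤ 1 :=
      (lp.norm_apply_le_norm ENNReal.top_ne_zero g.1.1 i).trans g.1.2
    have h2 : ((g.2 + 1 : ℕ) : ℝ) ≤ ((i + 1 : ℕ) : ℝ) := by
      exact_mod_cast Nat.succ_le_succ h
    calc ((g.2 + 1 : ℕ) : ℝ) * ‖(g.1.1 : LInf 𝕜) i‖ ≤ ((i + 1 : ℕ) : ℝ) * 1 :=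
          mul_le_mul h2 h1 (norm_nonneg _) (by positivity)
      _ = _ := by ring
  · simp only [mul_zero, norm_zero]
    positivity

theorem summable_norm (z : LOne 𝕜) : Summable (fun g => ‖z g‖) := by
  have := (lp.memℓp z).summable (p := 1) (by simp)
  simpa using this

theorem norm_eq_tsum (z : LOne 𝕜) : ‖z‖ = ∑' g, ‖z g‖ := by
  have := lp.norm_eq_tsum_rpow (p := 1) (by simp) z
  simpa using this

theorem summable_wt (i : ℕ) (z : LOne 𝕜) : Summable (fun g => wt i g * z g) := by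
  refine Summable.of_norm_bounded (g := fun g => ((i + 1 : ℕ) : ℝ) * ‖z g‖)
    ((summable_norm z).mul_left _) ?_
  intro g
  rw [norm_mul]
  exact mul_le_mul_of_nonneg_right (norm_wt_le i g) (norm_nonneg _)

/-- the functional z ↦ sum of wt i g * z g on l1 -/
noncomputable def sumF (i : ℕ) : LOne 𝕜 →L[𝕜] 𝕜 :=
  LinearMap.mkContinuous
    { toFun := fun z => ∑' g, wt i g * z g
      map_add' := by
        intro z w
        rw [← (summable_wt i z).tsum_add (summable_wt i w)]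
        congr 1
        funext g
        simp only [lp.coeFn_add, Pi.add_apply]
        ring
      map_smul' := by
        intro c z
        simp only [RingHom.id_apply, smul_eq_mul]
        rw [← tsum_mul_left]
        congr 1
        funext g
        simp only [lp.coeFn_smul, Pi.smul_apply, smul_eq_mul]
        ring }
    ((i + 1 : ℕ) : ℝ) (by
      intro z
      simp only [LinearMap.coe_mk, AddHom.coe_mk]
      rw [norm_eq_tsum, ← tsum_mul_left]
      refine tsum_of_norm_bounded (((summable_norm z).mul_left _).hasSum) ?_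
      intro g
      rw [norm_mul]
      exact mul_le_mul_of_nonneg_right (norm_wt_le i g) (norm_nonneg _))

theorem sumF_apply (i : ℕ) (z : LOne 𝕜) : sumF i z = ∑' g, wt i g * z g := rfl

open Classical in
theorem sumF_single (i : ℕ) (g : Gam 𝕜) : sumF i (lp.single 1 g (1 : 𝕜)) = wt i g := by
  rw [sumF_apply, tsum_eq_single g]
  · rw [lp.single_apply_self, mul_one]
  · intro g' hg'
    rw [lp.single_apply_ne _ _ _ hg', mul_zero]

open Classical in
/-- the vectors of the M-basis -/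
noncomputable def X : ℕ ⊕ Gam 𝕜 → LInf 𝕜 × LOne 𝕜
  | Sum.inl i => (lp.single ∞ i (1 : 𝕜), 0)
  | Sum.inr g => (((g.2 + 1 : ℕ) : 𝕜) • tail g.2 g.1.1, lp.single 1 g (1 : 𝕜))

/-- the functionals of the M-basis -/
noncomputable def F : ℕ ⊕ Gam 𝕜 → ((LInf 𝕜 × LOne 𝕜) →L[𝕜] 𝕜)
  | Sum.inl i => (lp.evalCLM 𝕜 (fun _ : ℕ => 𝕜) ∞ i).comp (ContinuousLinearMap.fst 𝕜 _ _)
      - (sumF i).comp (ContinuousLinearMap.snd 𝕜 _ _)
  | Sum.inr g => (lp.evalCLM 𝕜 (fun _ : Gam 𝕜 => 𝕜) 1 g).comp (ContinuousLinearMap.snd 𝕜 _ _)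

theorem F_inl (i : ℕ) (v : LInf 𝕜 × LOne 𝕜) : F (Sum.inl i) v = v.1 i - sumF i v.2 := rfl

theorem F_inr (g : Gam 𝕜) (v : LInf 𝕜 × LOne 𝕜) : F (Sum.inr g) v = v.2 g := rfl

open Classical in
theorem biorth (a b : ℕ ⊕ Gam 𝕜) : F a (X b) = if a = b then 1 else 0 := by
  rcases a with i | g <;> rcases b with j | h
  · rw [F_inl]
    simp only [X, map_zero, sub_zero]
    by_cases hij : i = j
    · subst hij
      rw [lp.single_apply_self]
      simp
    · rw [lp.single_apply_ne _ _ _ hij]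
      simp [hij]
  · rw [F_inl]
    simp only [X]
    have : sumF i (lp.single 1 h (1 : 𝕜)) = wt i h := by
      convert sumF_single i h
    rw [this]
    simp only [lp.coeFn_smul, Pi.smul_apply, smul_eq_mul, tail_apply, wt]
    simp
  · rw [F_inr]
    simp [X]
  · rw [F_inr]
    simp only [X]
    by_cases hij : g = h
    · subst hij
      rw [lp.single_apply_self]
      simp
    · rw [lp.single_apply_ne _ _ _ hij]
      simp [hij]

theorem total (v : LInf 𝕜 × LOne 𝕜) (hv : ∀ a, F a v = 0) : v = 0 := by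
  have h2 : v.2 = 0 := by
    apply lp.ext
    funext g
    have := hv (Sum.inr g)
    rw [F_inr] at this
    simpa using this
  have h1 : v.1 = 0 := by
    apply lp.ext
    funext i
    have := hv (Sum.inl i)
    rw [F_inl, h2, map_zero, sub_zero] at this
    simpa using this
  exact Prod.ext h1 h2

/-- the closed linear span of the vectors of the M-basis -/
noncomputable def S : Submodule 𝕜 (LInf 𝕜 × LOne 𝕜) :=
  (Submodule.span 𝕜 (Set.range (X (𝕜 := 𝕜)))).topologicalClosure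

theorem X_mem (a : ℕ ⊕ Gam 𝕜) : X a ∈ S (𝕜 := 𝕜) :=
  Submodule.le_topologicalClosure _ (Submodule.subset_span ⟨a, rfl⟩)

theorem ball_mem (y : LInf 𝕜) (hy : ‖y‖ ≤ 1) : ((y, 0) : LInf 𝕜 × LOne 𝕜) ∈ S (𝕜 := 𝕜) := by
  classical
  let v : ℕ → LInf 𝕜 × LOne 𝕜 := fun n =>
    (((n + 1 : ℕ) : 𝕜)⁻¹) • X (Sum.inr ((⟨y, hy⟩, n) : Gam 𝕜))
      + ∑ i ∈ Finset.range n, (y i) • X (Sum.inl i)
  have hv : ∀ n, v n ∈ S (𝕜 := 𝕜) := by
    intro n
    refine S.add_mem (S.smul_mem _ (X_mem _)) (S.sum_mem ?_)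
    intro i _
    exact S.smul_mem _ (X_mem _)
  have hne : ∀ n : ℕ, (((n + 1 : ℕ) : 𝕜)) ≠ 0 := by
    intro n
    exact Nat.cast_ne_zero.mpr (Nat.succ_ne_zero n)
  have hv1 : ∀ n, (v n).1 = y := by
    intro n
    apply lp.ext
    funext k
    simp only [v, X, Prod.fst_add, Prod.smul_fst, Prod.fst_sum]
    rw [smul_smul, inv_mul_cancel₀ (hne n), one_smul]
    simp only [lp.coeFn_add, lp.coeFn_sum, lp.coeFn_smul, Pi.add_apply, Finset.sum_apply,
      Pi.smul_apply, tail_apply, smul_eq_mul, lp.coeFn_single]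
    by_cases hk : n ≤ k
    · rw [if_pos hk, Finset.sum_eq_zero]
      · simp
      · intro i hi
        have : k ≠ i := by
          have := Finset.mem_range.mp hi
          omega
        rw [Pi.single_apply, if_neg this, mul_zero]
    · rw [if_neg hk, zero_add, Finset.sum_eq_single k]
      · rw [Pi.single_apply, if_pos rfl, mul_one]
      · intro i _ hik
        rw [Pi.single_apply, if_neg (Ne.symm hik), mul_zero]
      · intro hk'
        exact absurd (Finset.mem_range.mpr (by omega)) hk'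
  have hv2 : ∀ n, (v n).2 = (((n + 1 : ℕ) : 𝕜)⁻¹) • lp.single 1 ((⟨y, hy⟩, n) : Gam 𝕜) (1 : 𝕜) := by
    intro n
    simp only [v, X, Prod.snd_add, Prod.smul_snd, Prod.snd_sum, smul_zero, Finset.sum_const_zero,
      add_zero]
  have hlim : Tendsto v atTop (𝓝 ((y, 0) : LInf 𝕜 × LOne 𝕜)) := by
    rw [tendsto_iff_norm_sub_tendsto_zero]
    have hnorm : ∀ n, ‖v n - ((y, 0) : LInf 𝕜 × LOne 𝕜)‖ = 1 / ((n : ℝ) + 1) := by
      intro n
      have : v n - ((y, 0) : LInf 𝕜 × LOne 𝕜)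
          = (0, (((n + 1 : ℕ) : 𝕜)⁻¹) • lp.single 1 ((⟨y, hy⟩, n) : Gam 𝕜) (1 : 𝕜)) := by
        apply Prod.ext
        · simp [hv1]
        · simp [hv2]
      rw [this, Prod.norm_mk, norm_zero, norm_smul, norm_inv, RCLike.norm_natCast,
        lp.norm_single (by simp), norm_one, mul_one]
      rw [max_eq_right (by positivity)]
      push_cast
      rw [one_div]
    simp_rw [hnorm]
    exact tendsto_one_div_add_atTop_nhds_zero_nat
  have hcl : IsClosed (S (𝕜 := 𝕜) : Set (LInf 𝕜 × LOne 𝕜)) :=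
    Submodule.isClosed_topologicalClosure _
  exact hcl.mem_of_tendsto hlim (Eventually.of_forall hv)

theorem fst_mem (u : LInf 𝕜) : ((u, 0) : LInf 𝕜 × LOne 𝕜) ∈ S (𝕜 := 𝕜) := by
  by_cases hu : u = 0
  · rw [hu]
    exact S.zero_mem
  · have hn : ‖u‖ ≠ 0 := norm_ne_zero_iff.mpr hu
    have hn' : ((‖u‖ : ℝ) : 𝕜) ≠ 0 := by exact_mod_cast hn
    have h1 : ‖(((‖u‖ : ℝ) : 𝕜)⁻¹) • u‖ ≤ 1 := by
      rw [norm_smul, norm_inv, RCLike.norm_ofReal, abs_norm, inv_mul_cancel₀ hn]
    have h2 := S.smul_mem ((‖u‖ : ℝ) : 𝕜) (ball_mem _ h1)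
    have h3 : ((‖u‖ : ℝ) : 𝕜) • (((((‖u‖ : ℝ) : 𝕜)⁻¹) • u, 0) : LInf 𝕜 × LOne 𝕜) = (u, 0) := by
      rw [Prod.smul_mk, smul_zero, smul_smul, mul_inv_cancel₀ hn', one_smul]
    rwa [h3] at h2

open Classical in
theorem single_mem (g : Gam 𝕜) (c : 𝕜) :
    ((0, lp.single 1 g c) : LInf 𝕜 × LOne 𝕜) ∈ S (𝕜 := 𝕜) := by
  have h1 := S.sub_mem (X_mem (Sum.inr g))
    (fst_mem (((g.2 + 1 : ℕ) : 𝕜) • tail g.2 g.1.1))
  have h2 : (X (Sum.inr g) : LInf 𝕜 × LOne 𝕜) - ((((g.2 + 1 : ℕ) : 𝕜) • tail g.2 g.1.1, 0) : LInf 𝕜 × LOne 𝕜)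
      = (0, lp.single 1 g (1 : 𝕜)) := by
    apply Prod.ext
    · simp [X]
    · simp [X]
  rw [h2] at h1
  have h3 := S.smul_mem c h1
  have h4 : c • ((0, lp.single 1 g (1 : 𝕜)) : LInf 𝕜 × LOne 𝕜) = (0, lp.single 1 g c) := by
    rw [Prod.smul_mk, smul_zero, ← lp.single_smul, smul_eq_mul, mul_one]
  rwa [h4] at h3

theorem snd_mem (z : LOne 𝕜) : ((0, z) : LInf 𝕜 × LOne 𝕜) ∈ S (𝕜 := 𝕜) := by
  classical
  have h1 : HasSum (fun g => lp.single 1 g (z g)) z := lp.hasSum_single (by simp) z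
  have h2 : HasSum (fun g => ((0, lp.single 1 g (z g)) : LInf 𝕜 × LOne 𝕜)) (0, z) := by
    have := h1.mapL (ContinuousLinearMap.inr 𝕜 (LInf 𝕜) (LOne 𝕜))
    simpa using this
  have hcl : IsClosed (S (𝕜 := 𝕜) : Set (LInf 𝕜 × LOne 𝕜)) :=
    Submodule.isClosed_topologicalClosure _
  refine hcl.mem_of_tendsto h2 (Eventually.of_forall ?_)
  intro s
  refine S.sum_mem ?_
  intro g _
  exact single_mem g _

theorem span_top : (Submodule.span 𝕜 (Set.range (X (𝕜 := 𝕜)))).topologicalClosure = ⊤ := by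
  rw [eq_top_iff]
  rintro ⟨u, z⟩ _
  have h := S.add_mem (fst_mem u) (snd_mem z)
  have h2 : ((u, 0) : LInf 𝕜 × LOne 𝕜) + (0, z) = (u, z) := by simp
  rw [h2] at h
  exact h

/-- There is a Banach space (over the real or the complex numbers) with an extended M-basis which
has a closed subspace isomorphic to the space of bounded scalar sequences. -/
theorem result (𝕜 : Type) [RCLike 𝕜] :
    ∃ (E : Type) (_ : NormedAddCommGroup E) (_ : NormedSpace 𝕜 E) (_ : CompleteSpace E),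
      (∃ (I : Type) (x : I → E) (f : I → (E →L[𝕜] 𝕜)),
        (∀ i, f i (x i) = 1) ∧ (∀ i j, i ≠ j → f j (x i) = 0) ∧
        (Submodule.span 𝕜 (Set.range x)).topologicalClosure = ⊤ ∧
        (∀ v : E, (∀ i, f i v = 0) → v = 0)) ∧
      ∃ G : Submodule 𝕜 E, IsClosed (G : Set E) ∧ Nonempty (G ≃L[𝕜] lp (fun _ : ℕ => 𝕜) ∞) := by
  refine ⟨LInf 𝕜 × LOne 𝕜, inferInstance, inferInstance, inferInstance, ?_, ?_⟩
  · refine ⟨ℕ ⊕ Gam 𝕜, X, F, ?_, ?_, span_top, total⟩
    · intro i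
      rw [biorth, if_pos rfl]
    · intro i j hij
      rw [biorth, if_neg (Ne.symm hij)]
  · refine ⟨LinearMap.range (LinearMap.inl 𝕜 (LInf 𝕜) (LOne 𝕜)), ?_, ?_⟩
    · have : (LinearMap.range (LinearMap.inl 𝕜 (LInf 𝕜) (LOne 𝕜)) : Set (LInf 𝕜 × LOne 𝕜))
          = {v | v.2 = 0} := by
        ext v
        constructor
        · rintro ⟨u, rfl⟩
          rfl
        · intro hv
          exact ⟨v.1, Prod.ext rfl hv.symm⟩
      rw [this]
      exact isClosed_eq continuous_snd continuous_const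
    · refine ⟨ContinuousLinearEquiv.symm
        { toFun := fun u => ⟨(u, 0), ⟨u, rfl⟩⟩
          invFun := fun v => v.1.1
          left_inv := fun u => rfl
          right_inv := by
            rintro ⟨v, ⟨u, rfl⟩⟩
            rfl
          map_add' := by
            intro u v
            apply Subtype.ext
            simp
          map_smul' := by
            intro c u
            apply Subtype.ext
            simp
          continuous_toFun := Continuous.subtype_mk (continuous_id.prodMk continuous_const) _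
          continuous_invFun := continuous_fst.comp continuous_subtype_val }⟩

end Pool.Agent.Results.MP_810de6_an.MBasisContainsLinf
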